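import Pool.Agent.helper12.DD.Spec2

/-! ZBL: a character of defect zero is alone in its block. -/

set_option autoImplicit false

open Pool.Agent.helper49.Blk

namespace Pool.Agent.DD

theorem ZBL : ZBL_stmt := by
  classical
  intro p hp M hM hpM G _ _ χ hχ ψ hψ hs m n hm hn hlt
  by_contra hcon
  have : Fintype G := Fintype.ofFinite G
  have : Fintype (ConjClasses G) := Fintype.ofFinite _
  have : Fact p.Prime := ⟨hp⟩
  have hdvd : n ∣ Nat.card G := all_DVD G ψ hψ n hn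
  have hG0 : Nat.card G ≠ 0 := Nat.card_pos.ne'
  have hn0 : n ≠ 0 := fun h => hG0 (Nat.eq_zero_of_zero_dvd (h ▸ hdvd))
  have hm0 : m ≠ 0 := by
    obtain ⟨k, hk, hk'⟩ := ((IRF G).2 χ hχ).1
    rw [hm] at hk'
    have : m = k := by exact_mod_cast hk'
    omega
  have hnC : (n : ℂ) ≠ 0 := by exact_mod_cast hn0
  have hmC : (m : ℂ) ≠ 0 := by exact_mod_cast hm0
  obtain ⟨h, hh⟩ := hdvd
  have hh0 : h ≠ 0 := by
    intro h0
    rw [h0, mul_zero] at hh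
    exact hG0 hh
  have hval : padicValNat p (Nat.card G) = padicValNat p n + padicValNat p h := by
    rw [hh, padicValNat.mul hn0 hh0]
  have hph : ¬ p ∣ h := by
    intro hd
    have h1 := one_le_padicValNat_of_dvd hh0 hd
    omega
  have hne : χ ≠ ψ := by
    intro he
    rw [he, hn] at hm
    have hmn : n = m := by exact_mod_cast hm
    rw [← hmn] at hlt
    exact hcon hlt
  have hcχ : ∀ g k, IsConj g k → χ g = χ k := by
    intro g k hgk
    obtain ⟨c, rfl⟩ := isConj_iff.mp hgk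
    exact (((IRF G).2 χ hχ).2 g c).symm
  have hcψ : ∀ g k, IsConj g k → ψ g = ψ k := by
    intro g k hgk
    obtain ⟨c, rfl⟩ := isConj_iff.mp hgk
    exact (((IRF G).2 ψ hψ).2 g c).symm
  have o1 : ∑ g : G, χ g * ψ g⁻¹ = 0 := by
    obtain ⟨V, _, _, _, ρ, hρ, rfl⟩ := hχ
    obtain ⟨W, _, _, _, σ, hσ, rfl⟩ := hψ
    exact (orth ρ σ hρ hσ).1 hne
  have o2 : ∑ g : G, ψ g * ψ g⁻¹ = (Nat.card G : ℂ) := by
    obtain ⟨W, _, _, _, σ, hσ, rfl⟩ := hψ
    exact (orth σ σ hσ hσ).2 rfl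
  have s1 := sum_class (fun g : G => ψ g⁻¹ * (χ g / m - ψ g / n)) (fun g k hgk => by
    have h3 : IsConj g⁻¹ k⁻¹ := by
      obtain ⟨c, rfl⟩ := isConj_iff.mp hgk
      exact isConj_iff.mpr ⟨c, by group⟩
    show ψ g⁻¹ * (χ g / m - ψ g / n) = ψ k⁻¹ * (χ k / m - ψ k / n)
    rw [hcχ g k hgk, hcψ g k hgk, hcψ _ _ h3])
  have s2 : ∑ g : G, ψ g⁻¹ * (χ g / m - ψ g / n) = -(h : ℂ) := by
    have e1 : ∀ g : G, ψ g⁻¹ * (χ g / m - ψ g / n) =
        (χ g * ψ g⁻¹) * (m : ℂ)⁻¹ - (ψ g * ψ g⁻¹) * (n : ℂ)⁻¹ := by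
      intro g
      ring
    rw [Finset.sum_congr rfl (fun g _ => e1 g), Finset.sum_sub_distrib, ← Finset.sum_mul,
      ← Finset.sum_mul, o1, o2, hh]
    push_cast
    field_simp
    ring
  rw [s2] at s1
  have t3 : ∀ K : ConjClasses G, ∃ a ∈ M, (Nat.card (conjugatesOf K.out) : ℂ) *
      (ψ (K.out)⁻¹ * (χ K.out / m - ψ K.out / n)) = ((a : integralClosure ℤ ℂ) : ℂ) := by
    intro K
    obtain ⟨a, ha, ha'⟩ := hs K.out
    refine ⟨(⟨ψ (K.out)⁻¹, INC G ψ hψ _⟩ : integralClosure ℤ ℂ) * a, M.mul_mem_left _ ha, ?_⟩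
    have e : (((⟨ψ (K.out)⁻¹, INC G ψ hψ _⟩ : integralClosure ℤ ℂ) * a : integralClosure ℤ ℂ) : ℂ)
        = ψ (K.out)⁻¹ * (a : ℂ) := rfl
    rw [e, ← ha']
    unfold omega
    rw [hm, hn]
    ring
  choose a ha ha' using t3
  rw [Finset.sum_congr rfl fun K _ => ha' K] at s1
  have t4 : ((h : ℕ) : integralClosure ℤ ℂ) = -(∑ K, a K : integralClosure ℤ ℂ) := by
    apply Subtype.ext
    push_cast
    rw [← s1]
    ring
  have t5 : ((h : ℕ) : integralClosure ℤ ℂ) ∈ M := by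
    rw [t4]
    exact M.neg_mem (M.sum_mem fun K _ => ha K)
  have t7 : Nat.Coprime p h := (Nat.Prime.coprime_iff_not_dvd hp).2 hph
  apply hM.ne_top
  rw [Ideal.eq_top_iff_one]
  have t8 := Int.gcd_eq_gcd_ab (p : ℤ) ((h : ℕ) : ℤ)
  rw [Int.gcd_natCast_natCast, t7.gcd_eq_one] at t8
  have t9 := congrArg (fun z : ℤ => (z : integralClosure ℤ ℂ)) t8
  simp only [Int.cast_add, Int.cast_mul, Nat.cast_one, Int.cast_one, Int.cast_natCast] at t9
  rw [t9]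
  exact M.add_mem (M.mul_mem_right _ hpM) (M.mul_mem_right _ t5)

end Pool.Agent.DD
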